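import Pool.Agent.H699.T.Bnd

/-!
# Almost all vertices belong to the units
-/

set_option autoImplicit false

namespace Pool.Agent.H313.T.RB

open Finset Classical Pool.Agent.H699.T

theorem t_RB : S_EXBASIC → S_AVOID → S_EXSUM → S_KEY → S_BADP → S_HUBP → S_RB := by
  intro hB hAv hEs hK hBad hHub qmin ε pf hε hpf
  obtain ⟨mono, addE, mulE, -, sumE, -, -, markov, union, monoP, -, -⟩ := hB
  have hεp : 0 < ε * pf := mul_pos hε hpf
  -- choice of q
  obtain ⟨q1, hq1⟩ := exists_nat_ge (16 / (ε * pf))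
  set q : ℕ := max (max qmin 2) q1 with hq
  have hq2 : 2 ≤ q := le_trans (le_max_right _ _) (le_max_left _ _)
  have hqm : qmin ≤ q := le_trans (le_max_left _ _) (le_max_left _ _)
  have hqq : 16 / (ε * pf) ≤ (q : ℝ) := hq1.trans (by exact_mod_cast le_max_right _ _)
  have hq0 : (0 : ℝ) < q := by
    have : (2 : ℝ) ≤ q := by exact_mod_cast hq2
    linarith
  have hq2' : (2 : ℝ) ≤ q := by exact_mod_cast hq2
  set ρ : ℝ := 1 - 1 / (q : ℝ) with hρ
  have hρ0 : 0 ≤ ρ := by
    have : 1 / (q : ℝ) ≤ 1 := by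
      rw [div_le_one hq0]
      linarith
    linarith
  have hρ1 : ρ < 1 := by
    have : 0 < 1 / (q : ℝ) := by positivity
    linarith
  obtain ⟨L, hL⟩ := exists_pow_lt_of_lt_one (show 0 < ε * pf / 16 by positivity) hρ1
  obtain ⟨Δ, hΔ⟩ := exists_nat_ge (16 * (q : ℝ) / (ε * pf))
  obtain ⟨N1, hN1⟩ := exists_pow_lt_of_lt_one (show 0 < pf / 4 by positivity) hρ1
  refine ⟨q, L, Δ, max (max N1 (L + 1)) 1, by omega, hqm, ?_⟩
  intro N hN k d hd
  have hNL : L < N := by
    have : L + 1 ≤ N := le_trans (le_trans (le_max_right _ _) (le_max_left _ _)) hN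
    omega
  have hNN1 : N1 ≤ N := le_trans (le_trans (le_max_left _ _) (le_max_left _ _)) hN
  have hN0 : (0 : ℝ) < N := by
    have : 0 < N := by omega
    exact_mod_cast this
  have hκ : IsKey (key d) := (hK N d hd.symm).1
  set κ := key d with hκd
  have hc : 0 < ε * N / 3 := by positivity
  -- the three functions
  set f1 : (Fin N → Fin q) → ℝ := fun ω => ∑ v ∈ zs ω, (1 : ℝ) with hf1
  set f2 : (Fin N → Fin q) → ℝ := fun ω => ∑ v, (if Bad κ (zs ω) L v then (1 : ℝ) else 0) with hf2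
  set f3 : (Fin N → Fin q) → ℝ := fun ω => if (zs ω).Nonempty then
    ∑ v, (if Hub κ (zs ω) Δ v then (1 : ℝ) else 0) else 0 with hf3
  have e1 : ex f1 = N / q := by
    have := hEs N q (by omega) (fun _ => 1)
    rw [hf1, this]
    simp
  have e2 : ex f2 ≤ N * ρ ^ L := by
    have h := sumE (Fin N → Fin q) (Fin N) univ
      (fun v ω => if Bad κ (zs ω) L v then (1 : ℝ) else 0)
    rw [hf2, h]
    have h' : ∀ v ∈ (univ : Finset (Fin N)),
        ex (fun ω : Fin N → Fin q => if Bad κ (zs ω) L v then (1 : ℝ) else 0) ≤ ρ ^ L := by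
      intro v _
      exact hBad N q L κ hκ (by omega) hNL v
    refine (Finset.sum_le_sum h').trans ?_
    simp
  have e3 : ((Δ : ℝ) + 1) * ex f3 ≤ N * q := by
    rw [← mulE]
    refine (mono _ _ _ ?_).trans (hHub N q κ hκ (by omega))
    intro ω
    simp only [hf3]
    split_ifs with hne
    · rw [Finset.mul_sum]
      refine Finset.sum_le_sum fun v _ => ?_
      split_ifs with hh
      · have : Δ + 1 ≤ (dn κ (zs ω) v).card := hh
        have h2 : ((Δ : ℝ) + 1) ≤ ((dn κ (zs ω) v).card : ℝ) := by exact_mod_cast this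
        linarith
      · simp
    · simp
  -- the event
  have hev : ∀ ω : Fin N → Fin q, ¬ ((zs ω).Nonempty ∧
      ((univ \ V0 κ (zs ω) L Δ).card : ℝ) ≤ ε * N) →
      ((∀ u ∈ (univ : Finset (Fin N)), u ∉ zs ω) ∨ ε * N / 3 ≤ f1 ω) ∨
        (ε * N / 3 ≤ f2 ω ∨ ε * N / 3 ≤ f3 ω) := by
    intro ω hω
    by_contra hcon
    push Not at hcon
    obtain ⟨⟨⟨u, -, hu⟩, h1⟩, h2, h3⟩ := hcon
    apply hω
    have hne : (zs ω).Nonempty := ⟨u, hu⟩
    refine ⟨hne, ?_⟩
    have hsub : univ \ V0 κ (zs ω) L Δ ⊆ (zs ω ∪ univ.filter fun v => Bad κ (zs ω) L v) ∪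
        univ.filter fun v => Hub κ (zs ω) Δ v := by
      intro v hv
      simp only [V0, mem_sdiff, mem_univ, true_and, mem_filter, not_and, not_not] at hv
      simp only [mem_union, mem_filter, mem_univ, true_and]
      by_cases h : v ∈ zs ω
      · exact Or.inl (Or.inl h)
      · by_cases h' : Bad κ (zs ω) L v
        · exact Or.inl (Or.inr h')
        · exact Or.inr (hv h h')
    have hcard : ((univ \ V0 κ (zs ω) L Δ).card : ℝ) ≤ f1 ω + f2 ω + f3 ω := by
      have g1 : f1 ω = ((zs ω).card : ℝ) := by simp [hf1]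
      have g2 : f2 ω = ((univ.filter fun v => Bad κ (zs ω) L v).card : ℝ) := by
        simp [hf2]
      have g3 : f3 ω = ((univ.filter fun v => Hub κ (zs ω) Δ v).card : ℝ) := by
        simp [hf3, hne]
      rw [g1, g2, g3]
      have c1 := Finset.card_le_card hsub
      have c2 := Finset.card_union_le (zs ω ∪ univ.filter fun v => Bad κ (zs ω) L v)
        (univ.filter fun v => Hub κ (zs ω) Δ v)
      have c3 := Finset.card_union_le (zs ω) (univ.filter fun v => Bad κ (zs ω) L v)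
      exact_mod_cast (c1.trans c2).trans (Nat.add_le_add_right c3 _)
    linarith
  have p0 : pr (fun ω : Fin N → Fin q => ∀ u ∈ (univ : Finset (Fin N)), u ∉ zs ω) ≤ pf / 4 := by
    rw [hAv N q (by omega) univ, Finset.card_univ, Fintype.card_fin]
    exact (pow_le_pow_of_le_one hρ0 hρ1.le hNN1).trans hN1.le
  have m1 : pr (fun ω : Fin N → Fin q => ε * N / 3 ≤ f1 ω) ≤ 3 / 16 * pf := by
    refine (markov _ f1 _ hc fun ω => Finset.sum_nonneg fun _ _ => zero_le_one).trans ?_
    rw [e1, div_le_iff₀ hc, div_le_iff₀ hq0]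
    rw [div_le_iff₀ hεp] at hqq
    nlinarith [mul_le_mul_of_nonneg_left hqq hN0.le]
  have m2 : pr (fun ω : Fin N → Fin q => ε * N / 3 ≤ f2 ω) ≤ 3 / 16 * pf := by
    refine (markov _ f2 _ hc fun ω => Finset.sum_nonneg fun _ _ => by split_ifs <;> norm_num).trans ?_
    rw [div_le_iff₀ hc]
    refine e2.trans ?_
    nlinarith [mul_le_mul_of_nonneg_left hL.le hN0.le]
  have m3 : pr (fun ω : Fin N → Fin q => ε * N / 3 ≤ f3 ω) ≤ 3 / 16 * pf := by
    refine (markov _ f3 _ hc fun ω => ?_).trans ?_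
    · simp only [hf3]
      split_ifs
      · exact Finset.sum_nonneg fun _ _ => by split_ifs <;> norm_num
      · exact le_rfl
    rw [div_le_iff₀ hc]
    have hΔ0 : (0 : ℝ) < (Δ : ℝ) + 1 := by positivity
    have h4 : ex f3 ≤ N * q / ((Δ : ℝ) + 1) := by
      rw [le_div_iff₀ hΔ0]
      linarith
    refine h4.trans ?_
    rw [div_le_iff₀ hΔ0]
    rw [div_le_iff₀ hεp] at hΔ
    have h5 : 0 ≤ 3 / 16 * pf * (ε * N / 3) := by positivity
    nlinarith [mul_le_mul_of_nonneg_left hΔ hN0.le]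
  have hfin := (monoP _ _ _ hev).trans ((union _ _ _).trans
    (add_le_add ((union _ _ _).trans (add_le_add p0 m1)) ((union _ _ _).trans (add_le_add m2 m3))))
  refine hfin.trans ?_
  linarith

end Pool.Agent.H313.T.RB
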